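import Pool.Agent.Lib.H57U.G3

/-!
H57C (S14399, criterion with complex multiplication), M1: the context for a given curve (same proof as
`exists_ctx`).
-/

set_option autoImplicit false

open WeierstrassCurve WeierstrassCurve.Affine Module
open Pool.Agent.H60.UDef

namespace Pool.Agent.H57U

open scoped Classical in
/-- As `exists_ctx`, for a given curve. -/
theorem exists_ctx_at (p : ℕ) [Fact p.Prime] {L : Type} [Field L] [NumberField L] {r : ℕ} {a b : L}
    (hab : 4 * a ^ 3 + 27 * b ^ 2 ≠ 0) {P₀ : ((shortW a b)⁄L).Point}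
    (hP₀ : ∀ n : ℕ, 0 < n → n • P₀ ≠ 0) {m : ℕ} (hm : 0 < m) (G : Fin r → ((shortW a b)⁄L).Point)
    (hG : ∀ P : ((shortW a b)⁄L).Point, ∃ k : Fin r → ℤ, m • P = ∑ j, k j • G j) :
    ∃ C : Ctx p L a b, finrank ℚ_[p] C.W ≤ r := by
  have hp1 : (1 : ℝ) < p := by exact_mod_cast (Fact.out : p.Prime).one_lt
  have hp0 : (0 : ℝ) < p := by linarith
  set S : ℝ := ∑ σ : L →+* ℚ_[p], (‖σ a‖ + ‖σ b‖) with hS
  have hS0 : 0 ≤ S := Finset.sum_nonneg fun σ _ => by positivity
  have hSle : ∀ σ : L →+* ℚ_[p], ‖σ a‖ + ‖σ b‖ ≤ S := fun σ =>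
    Finset.single_le_sum (f := fun σ : L →+* ℚ_[p] => ‖σ a‖ + ‖σ b‖)
      (fun σ _ => by positivity) (Finset.mem_univ σ)
  set δ : ℝ := ((p : ℝ)⁻¹) ^ 2 * (1 + S)⁻¹ with hδdef
  have hp2 : ((p : ℝ)⁻¹) ^ 2 ≤ 1 := pow_le_one₀ (by positivity) (inv_le_one_of_one_le₀ hp1.le)
  have hS1 : (1 + S)⁻¹ ≤ 1 := inv_le_one_of_one_le₀ (by linarith)
  have hδ0 : 0 < δ := by positivity
  have hδS : δ ≤ (1 + S)⁻¹ := by
    calc δ ≤ 1 * (1 + S)⁻¹ := by
          have : 0 ≤ (1 + S)⁻¹ := by positivity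
          exact mul_le_mul_of_nonneg_right hp2 this
      _ = _ := one_mul _
  have hmul : ∀ x : ℝ, 0 ≤ x → x ≤ S → x * δ ≤ 1 := by
    intro x hx0 hx
    calc x * δ ≤ (1 + S) * (1 + S)⁻¹ := by
          have : x ≤ 1 + S := by linarith
          gcongr
      _ = 1 := mul_inv_cancel₀ (by positivity)
  have hsmall : ∀ σ : L →+* ℚ_[p], Small σ a b δ := fun σ =>
    { pos := hδ0
      le := by
        calc δ ≤ ((p : ℝ)⁻¹) ^ 2 * 1 := by
              have : 0 ≤ ((p : ℝ)⁻¹) ^ 2 := by positivity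
              exact mul_le_mul_of_nonneg_left hS1 this
          _ = _ := mul_one _
      ha := hmul _ (norm_nonneg _) ((le_add_of_nonneg_right (norm_nonneg _)).trans (hSle σ))
      hb := hmul _ (norm_nonneg _) ((le_add_of_nonneg_left (norm_nonneg _)).trans (hSle σ)) }
  obtain ⟨N, hN, hNG⟩ := exists_nsmul_inU_all (fun σ : L →+* ℚ_[p] => σ) hab hsmall G
  choose lg hadd hbound using fun σ : L →+* ℚ_[p] => exists_log (hsmall σ)
  have hNm : 0 < N * m := Nat.mul_pos hN hm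
  have hn1 : N * m - 1 + 1 = N * m := Nat.sub_add_cancel hNm
  have hform : ∀ P : ((shortW a b)⁄L).Point, ∃ k : Fin r → ℤ,
      (N * m - 1 + 1) • P = ∑ j, k j • (N • G j) := by
    intro P
    obtain ⟨k, hk⟩ := hG P
    refine ⟨k, ?_⟩
    rw [hn1, mul_smul, hk, Finset.smul_sum]
    refine Finset.sum_congr rfl fun j _ => ?_
    rw [smul_comm]
  let C : Ctx p L a b :=
    { hab := hab
      n := N * m - 1
      δ := δ
      small := hsmall
      inU := fun P σ => by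
        obtain ⟨k, hk⟩ := hform P
        rw [hk]
        exact (g3_lin (hsmall σ) (hadd σ) (fun j => N • G j) (hNG σ) k).1
      lg := lg
      lg_add := hadd
      lg_bound := hbound
      star := ⟨P₀, hP₀ _ (Nat.succ_pos _)⟩ }
  refine ⟨C, ?_⟩
  let g : Fin r → ((L →+* ℚ_[p]) → ℚ_[p]) := fun j σ => lg σ (N • G j)
  have hW : C.W ≤ Submodule.span ℚ_[p] (Set.range g) := by
    refine Submodule.span_le.2 ?_
    rintro _ ⟨P, rfl⟩
    obtain ⟨k, hk⟩ := hform P
    have e : C.vec P = ∑ j, (k j : ℚ_[p]) • g j := by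
      funext σ
      rw [Finset.sum_apply]
      show lg σ ((N * m - 1 + 1) • P) = ∑ j, (k j : ℚ_[p]) * lg σ (N • G j)
      rw [hk]
      exact (g3_lin (hsmall σ) (hadd σ) (fun j => N • G j) (hNG σ) k).2
    rw [e]
    exact Submodule.sum_mem _ fun j _ => Submodule.smul_mem _ _ (Submodule.subset_span ⟨j, rfl⟩)
  calc finrank ℚ_[p] C.W ≤ finrank ℚ_[p] (Submodule.span ℚ_[p] (Set.range g)) :=
        Submodule.finrank_mono hW
    _ ≤ Fintype.card (Fin r) := finrank_range_le_card g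
    _ = r := Fintype.card_fin r

end Pool.Agent.H57U
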