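import Pool.Agent.Lib.H57CM.M1
import Pool.Agent.Lib.H57U.G2

/-!
H57C, M2: endomorphisms and logarithms. If `φ` is additive on points and `zc (φ P) = ζ zc P`, then the
logarithm of `φ P` is `ζ` times the logarithm of `P`.
-/

set_option autoImplicit false

open WeierstrassCurve WeierstrassCurve.Affine Module
open Pool.Agent.H60.UDef

namespace Pool.Agent.H57U

section

variable {p : ℕ} [Fact p.Prime] {L : Type} [Field L] {a b : L}

open scoped Classical in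
theorem Ctx.vec_act (C : Ctx p L a b) {ζ : L} (φ : ((shortW a b)⁄L).Point → ((shortW a b)⁄L).Point)
    (hadd : ∀ P Q, φ (P + Q) = φ P + φ Q) (hz : ∀ P, zc (φ P) = ζ * zc P)
    (σ : L →+* ℚ_[p]) (hζ : ‖σ ζ‖ ≤ 1) (P : ((shortW a b)⁄L).Point) :
    C.vec (φ P) σ = σ ζ * C.vec P σ := by
  have hp0 : (0 : ℝ) < p := by exact_mod_cast (Fact.out : p.Prime).pos
  have hp1 : (1 : ℝ) < p := by exact_mod_cast (Fact.out : p.Prime).one_lt
  let Φ : ((shortW a b)⁄L).Point →+ ((shortW a b)⁄L).Point := AddMonoidHom.mk' φ hadd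
  have hΦ : ∀ P, Φ P = φ P := fun _ => rfl
  set v := C.vec (φ P) σ - σ ζ * C.vec P σ with hv
  set B : ℝ := max (‖C.vec (φ P) σ‖ ^ 2) (‖C.vec P σ‖ ^ 2) with hB
  have hB0 : 0 ≤ B := le_max_of_le_left (by positivity)
  have key : ∀ N : ℕ, ‖v‖ ≤ p * B * ((p : ℝ)⁻¹) ^ N := by
    intro N
    set S := p ^ N • P with hS
    have e1 : C.vec S = ((p ^ N : ℕ) : ℚ_[p]) • C.vec P := C.vec_nsmul P (p ^ N)
    have e2 : C.vec (φ S) = ((p ^ N : ℕ) : ℚ_[p]) • C.vec (φ P) := by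
      rw [← hΦ, ← hΦ, hS, map_nsmul]
      exact C.vec_nsmul _ _
    have hn : ‖((p ^ N : ℕ) : ℚ_[p])‖ = ((p : ℝ)⁻¹) ^ N := by
      rw [Nat.cast_pow, norm_pow, Padic.norm_p]
    have h1 := C.vec_sub_zc S σ
    have h2 := C.vec_sub_zc (φ S) σ
    have h3 : (C.n + 1) • φ S = φ ((C.n + 1) • S) := (map_nsmul Φ (C.n + 1) S).symm
    rw [h3, hz, map_mul] at h2
    have h4 : ((p ^ N : ℕ) : ℚ_[p]) * v
        = (C.vec (φ S) σ - σ ζ * σ (zc ((C.n + 1) • S)))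
          - σ ζ * (C.vec S σ - σ (zc ((C.n + 1) • S))) := by
      rw [e1, e2, hv]
      simp only [Pi.smul_apply, smul_eq_mul]
      ring
    have h5 : ‖((p ^ N : ℕ) : ℚ_[p]) * v‖ ≤ p * B * (((p : ℝ)⁻¹) ^ N) ^ 2 := by
      rw [h4, sub_eq_add_neg (C.vec (φ S) σ - σ ζ * σ (zc ((C.n + 1) • S)))]
      refine (IsUltrametricDist.norm_add_le_max _ _).trans (max_le ?_ ?_)
      · refine h2.trans ?_
        rw [e2, Pi.smul_apply, smul_eq_mul, norm_mul, hn, mul_pow]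
        have : ‖C.vec (φ P) σ‖ ^ 2 ≤ B := le_max_left _ _
        calc (p : ℝ) * ((((p : ℝ)⁻¹) ^ N) ^ 2 * ‖C.vec (φ P) σ‖ ^ 2)
            ≤ (p : ℝ) * ((((p : ℝ)⁻¹) ^ N) ^ 2 * B) := by gcongr
          _ = _ := by ring
      · rw [norm_neg, norm_mul]
        refine (mul_le_of_le_one_left (norm_nonneg _) hζ).trans (h1.trans ?_)
        rw [e1, Pi.smul_apply, smul_eq_mul, norm_mul, hn, mul_pow]
        have : ‖C.vec P σ‖ ^ 2 ≤ B := le_max_right _ _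
        calc (p : ℝ) * ((((p : ℝ)⁻¹) ^ N) ^ 2 * ‖C.vec P σ‖ ^ 2)
            ≤ (p : ℝ) * ((((p : ℝ)⁻¹) ^ N) ^ 2 * B) := by gcongr
          _ = _ := by ring
    rw [norm_mul, hn] at h5
    have hpos : (0 : ℝ) < ((p : ℝ)⁻¹) ^ N := by positivity
    have h6 : ((p : ℝ)⁻¹) ^ N * ‖v‖ ≤ ((p : ℝ)⁻¹) ^ N * (p * B * ((p : ℝ)⁻¹) ^ N) := by
      calc ((p : ℝ)⁻¹) ^ N * ‖v‖ ≤ p * B * (((p : ℝ)⁻¹) ^ N) ^ 2 := h5
        _ = _ := by ring
    exact le_of_mul_le_mul_left h6 hpos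
  have hlim : Filter.Tendsto (fun N : ℕ => p * B * ((p : ℝ)⁻¹) ^ N) Filter.atTop (nhds (p * B * 0)) :=
    (tendsto_pow_atTop_nhds_zero_of_lt_one (by positivity) (inv_lt_one_of_one_lt₀ hp1)).const_mul _
  rw [mul_zero] at hlim
  have h7 : ‖v‖ ≤ 0 := ge_of_tendsto' hlim key
  have h8 : v = 0 := by simpa using h7
  exact sub_eq_zero.mp h8

open scoped Classical in
/-- Then `ζ` is a multiplier. -/
theorem Ctx.mem_mult_of_act (C : Ctx p L a b) {ζ : L}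
    (φ : ((shortW a b)⁄L).Point → ((shortW a b)⁄L).Point)
    (hadd : ∀ P Q, φ (P + Q) = φ P + φ Q) (hz : ∀ P, zc (φ P) = ζ * zc P)
    (hζ : ∀ σ : L →+* ℚ_[p], ‖σ ζ‖ ≤ 1) : (fun σ : L →+* ℚ_[p] => σ ζ) ∈ mult C.W := by
  intro w hw
  refine Submodule.span_induction (p := fun w _ => (fun σ : L →+* ℚ_[p] => σ ζ) * w ∈ C.W)
    ?_ ?_ ?_ ?_ hw
  · rintro _ ⟨P, rfl⟩
    have h1 : (fun σ : L →+* ℚ_[p] => σ ζ) * C.vec P = C.vec (φ P) := by
      funext σ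
      exact (C.vec_act φ hadd hz σ (hζ σ) P).symm
    rw [h1]
    exact Submodule.subset_span ⟨_, rfl⟩
  · rw [mul_zero]
    exact C.W.zero_mem
  · intro u v _ _ hu hv
    rw [mul_add]
    exact C.W.add_mem hu hv
  · intro c u _ hu
    rw [mul_smul_comm]
    exact C.W.smul_mem c hu

end

end Pool.Agent.H57U
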