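import Pool.Agent.Lib.H57CM.M2
import Pool.Agent.Lib.H57U.E5

/-!
H57C, M3: complex multiplication by a root of unity `ζ`. If the points of the curve over `L` are, up to a
multiple, `ℤ[ζ] P₀`, then every `x` with `1, ζ, x` independent over `ℚ` is outside a subfield of `L`
with Diophantine complement.
-/

set_option autoImplicit false

open WeierstrassCurve WeierstrassCurve.Affine Module
open Pool.Agent.H60.UDef

namespace Pool.Agent.H57U

open scoped Classical in
theorem cm_subfield (L : Type) [Field L] [NumberField L] {a b ζ : L}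
    (hab : 4 * a ^ 3 + 27 * b ^ 2 ≠ 0) {N : ℕ} (hN : 0 < N) (hζ : ζ ^ N = 1)
    (φ : ((shortW a b)⁄L).Point → ((shortW a b)⁄L).Point)
    (hadd : ∀ P Q, φ (P + Q) = φ P + φ Q) (hz : ∀ P, zc (φ P) = ζ * zc P)
    {P₀ : ((shortW a b)⁄L).Point} (hP₀ : ∀ n : ℕ, 0 < n → n • P₀ ≠ 0) {m : ℕ} (hm : 0 < m)
    (hG : ∀ P : ((shortW a b)⁄L).Point, ∃ k l : ℤ, m • P = k • P₀ + l • φ P₀)
    {x : L} (hx : LinearIndependent ℚ ![1, ζ, x]) :
    ∃ E : Subfield L, DioP L (fun y => y ∉ E) ∧ x ∉ E := by
  obtain ⟨p, hp, h2, hs⟩ := exists_splits L 2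
  obtain ⟨l₁, l₂, hg⟩ := exists_goodPrime p hp.out (by omega)
  obtain ⟨C, hW⟩ := exists_ctx_at p hab hP₀ hm ![P₀, φ P₀] (fun P => by
    obtain ⟨k, l, h⟩ := hG P
    refine ⟨![k, l], ?_⟩
    rw [h, Fin.sum_univ_two]
    rfl)
  have hn : ∀ σ : L →+* ℚ_[p], ‖σ ζ‖ ≤ 1 := by
    intro σ
    have h3 : ‖σ ζ‖ ^ N = 1 := by
      rw [← norm_pow, ← map_pow, hζ, map_one, norm_one]
    exact ((pow_eq_one_iff_of_nonneg (norm_nonneg _) hN.ne').mp h3).le
  have hmζ := C.mem_mult_of_act φ hadd hz hn
  obtain ⟨Q₀, hQ₀⟩ := C.star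
  have h3 : (fun σ : L →+* ℚ_[p] => σ x) ∉ mult C.W := by
    intro hmx
    have h4 := card_le_of_mult hs C.W hW (w := C.vec Q₀) (Submodule.subset_span ⟨Q₀, rfl⟩)
      (fun σ => C.vec_ne_zero hQ₀ σ) ![1, ζ, x] hx (by
        intro k
        fin_cases k
        · have : (fun σ : L →+* ℚ_[p] => σ (1 : L)) = 1 := by
            funext σ
            simp
          simp only [Fin.zero_eta, Matrix.cons_val_zero]
          rw [this]
          exact (mult C.W).one_mem
        · exact hmζ
        · exact hmx)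
    omega
  obtain ⟨i, j, hij, hne⟩ := exists_pair (mult C.W) h3
  refine ⟨RingHom.eqLocusField i j, ?_, fun hmem => hne hmem⟩
  exact (C.dioP_ne hs hg i j hij).congr fun y => Iff.rfl

/-- Independence of `1, ζ, x`. -/
theorem indep_of (L : Type) [Field L] [CharZero L] {ζ x : L} (hζ : ∀ q : ℚ, (q : L) ≠ ζ)
    (hx : ∀ q r : ℚ, x ≠ (q : L) + r * ζ) : LinearIndependent ℚ ![1, ζ, x] := by
  rw [Fintype.linearIndependent_iff]
  intro g hg
  rw [Fin.sum_univ_three] at hg
  simp only [Matrix.cons_val_zero, Matrix.cons_val_one, Matrix.cons_val, Algebra.smul_def,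
    eq_ratCast, mul_one] at hg
  have h2 : g 2 = 0 := by
    by_contra h
    have h' : (g 2 : L) ≠ 0 := by exact_mod_cast h
    apply hx (-(g 0) / g 2) (-(g 1) / g 2)
    push_cast
    field_simp
    linear_combination hg
  have h1 : g 1 = 0 := by
    by_contra h
    have h' : (g 1 : L) ≠ 0 := by exact_mod_cast h
    apply hζ (-(g 0) / g 1)
    rw [h2] at hg
    push_cast
    field_simp
    push_cast at hg
    linear_combination -hg
  have h0 : g 0 = 0 := by
    rw [h2, h1] at hg
    push_cast at hg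
    have : (g 0 : L) = 0 := by linear_combination hg
    exact_mod_cast this
  intro i
  fin_cases i
  · exact h0
  · exact h1
  · exact h2

/-- If every non-rational element of `K` is, in some finite extension `L`, outside a subfield with
Diophantine complement, then the complement of `ℚ` is Diophantine in `K`. -/
theorem dio_not_rat_of_subfields (K : Type) [Field K] [NumberField K]
    (h : ∀ x : K, (¬ ∃ q : ℚ, (q : K) = x) → ∃ (L : Type) (_ : Field L) (_ : NumberField L)
      (_ : Algebra K L) (E : Subfield L), DioP L (fun y => y ∉ E) ∧ algebraMap K L x ∉ E) :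
    Dio K (fun v : Fin 1 → K => ¬ ∃ q : ℚ, (q : K) = v 0) := by
  classical
  let Good : Subfield K → Prop := fun E => DioP K (fun y => y ∉ E)
  have h1 : ∀ E : Subfield K, DioP K (fun y => Good E ∧ y ∉ E) := by
    intro E
    by_cases hE : Good E
    · exact DioP.congr (id hE) fun y => ⟨fun hy => ⟨hE, hy⟩, fun hy => hy.2⟩
    · exact (DioR.false.dioP).congr fun y => by simp [hE]
  have h2 : DioP K (fun y => ∃ E : Subfield K, Good E ∧ y ∉ E) := DioP.exists_fintype h1
  have h4 : DioP K (fun x => ¬ ∃ q : ℚ, (q : K) = x) := by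
    refine h2.congr fun x => ?_
    constructor
    · rintro ⟨E, -, hE⟩ ⟨q, rfl⟩
      exact hE (SubfieldClass.ratCast_mem E q)
    · intro hx
      obtain ⟨L, _, _, _, E', hE', hxE⟩ := h x hx
      refine ⟨E'.comap (algebraMap K L), ?_, fun hmem => hxE hmem⟩
      exact (DioP.restrict K L hE').congr fun y => Iff.rfl
  exact h4.elim fun σ x hx ⟨q, hq⟩ => hx ⟨q, σ.injective (by rw [map_ratCast, hq])⟩

end Pool.Agent.H57U
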