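import Pool.Agent.Lib.H57CM.M3
import Pool.Agent.Lib.H60R.D15
import Pool.Agent.Lib.H57O.R2

/-!
H57C, M4: the family `y² = x³ + k x`, multiplication by `i`. `CMI L`: for every `i ∈ L` with `i² = -1` some
curve `y² = x³ + k x` over `L` has `ℤ[i]`-rank one. If `CMI L` for all number fields `L`, then `ℚ` is
universally definable in all number fields without `i`.
-/

set_option autoImplicit false

open WeierstrassCurve WeierstrassCurve.Affine Module
open Pool.Agent.H60.UDef Pool.Agent.H60R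

namespace Pool.Agent.H57U

open scoped Classical in
/-- For every `i ∈ L`, `i² = -1`, some curve `y² = x³ + k x` has `ℤ[i]`-rank one over `L`. -/
def CMI (L : Type) [Field L] : Prop :=
  ∀ i : L, i ^ 2 = -1 → ∃ k : L, k ≠ 0 ∧ ∃ Q : Ek k, (∀ n : ℕ, 0 < n → n • Q ≠ 0) ∧
    ∃ m : ℕ, 0 < m ∧ ∀ P : Ek k, ∃ a b : ℤ, m • P = a • Q + b • iac i Q

theorem zc_iac {L : Type} [Field L] [CharZero L] {k i : L} (hk : k ≠ 0) (hi : i ^ 2 = -1) (P : Ek k) :
    zc (iac i P) = i * zc P := by
  by_cases h0 : P = 0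
  · rw [h0, iac_zero, zc_zero, mul_zero]
  · obtain ⟨x, y, h⟩ := exists_isAt h0
    have hi0 : i ≠ 0 := by
      rintro rfl
      norm_num at hi
    rw [zc_isAt h, zc_isAt (iac_isAt hk hi h)]
    by_cases hy : y = 0
    · rw [hy]
      simp
    · field_simp
      linear_combination (-x) * hi

/-- Elements outside `ℚ(i)` are outside a subfield with Diophantine complement. -/
theorem subfield_i (L : Type) [Field L] [NumberField L] (hL : CMI L) {i : L} (hi : i ^ 2 = -1) {x : L}
    (hx : ∀ q r : ℚ, x ≠ (q : L) + r * i) :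
    ∃ E : Subfield L, DioP L (fun y => y ∉ E) ∧ x ∉ E := by
  classical
  obtain ⟨k, hk, Q, hQ, m, hm, hG⟩ := hL i hi
  have hab : 4 * k ^ 3 + 27 * (0 : L) ^ 2 ≠ 0 := by
    have : 4 * k ^ 3 ≠ 0 := mul_ne_zero (by norm_num) (pow_ne_zero 3 hk)
    simpa using this
  have hi4 : i ^ 4 = 1 := by
    calc i ^ 4 = (i ^ 2) ^ 2 := by ring
      _ = 1 := by rw [hi]; ring
  refine cm_subfield L hab (N := 4) (by norm_num) hi4 (iac i) (fun P Q => iac_add hk hi P Q)
    (fun P => zc_iac hk hi P) hQ hm hG (indep_of L ?_ hx)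
  intro q hq
  have h1 : ((q ^ 2 : ℚ) : L) = ((-1 : ℚ) : L) := by
    push_cast
    rw [hq]
    exact hi
  have h2 : q ^ 2 = -1 := by exact_mod_cast h1
  nlinarith [sq_nonneg q]

/-- A finite extension with a square root of `-1`. -/
theorem exists_i (K : Type) [Field K] [NumberField K] :
    ∃ (L : Type) (_ : Field L) (_ : NumberField L) (_ : Algebra K L) (i : L), i ^ 2 = -1 := by
  by_cases h : ∃ i : K, i ^ 2 = -1
  · obtain ⟨i, hi⟩ := h
    exact ⟨K, _, inferInstance, Algebra.id K, i, hi⟩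
  · push Not at h
    obtain ⟨M, h1, h2, h3, δ, hδ, -⟩ := Pool.Agent.H57O.exists_quad (-1 : K) h
    exact ⟨M, h1, h2, h3, δ, by rw [hδ, map_neg, map_one]⟩

/-- Number fields without `i`. -/
theorem dio_not_rat_i (K : Type) [Field K] [NumberField K] (hK : ∀ i : K, i ^ 2 ≠ -1)
    (hI : ∀ (L : Type) [Field L] [NumberField L], CMI L) :
    Dio K (fun v : Fin 1 → K => ¬ ∃ q : ℚ, (q : K) = v 0) := by
  refine dio_not_rat_of_subfields K fun x hx => ?_
  obtain ⟨M, h1, h2, h3, δ, hδ, -⟩ := Pool.Agent.H57O.exists_quad (-1 : K) hK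
  have hδ' : δ ^ 2 = -1 := by rw [hδ, map_neg, map_one]
  obtain ⟨E, hE, hxE⟩ := subfield_i M (hI M) hδ' (x := algebraMap K M x) (by
    intro q r h
    by_cases hr : r = 0
    · apply hx
      refine ⟨q, (algebraMap K M).injective ?_⟩
      rw [h, hr]
      simp
    · have hr' : (r : M) ≠ 0 := by exact_mod_cast hr
      apply hK ((x - q) / r)
      apply (algebraMap K M).injective
      rw [map_pow, map_div₀, map_sub, h, map_ratCast, map_ratCast, map_neg, map_one, ← hδ']
      congr 1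
      field_simp
      ring)
  exact ⟨M, h1, h2, h3, E, hE, hxE⟩

end Pool.Agent.H57U
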