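import Pool.Agent.Lib.H57CM.M4
import Pool.Agent.Lib.H60R.Main
import Pool.Agent.Lib.H52OM.O22
import Pool.Agent.Lib.SZ.P6
import Pool.Agent.Lib.H57O.F5

/-!
H57C, M5: S14399. `ℚ` is universally definable in every number field `K`: an element `x` outside `ℚ` is outside
`ℚ(i)` (use the curve `y² = x³ + k x` of `ℤ[i]`-rank one over `K(i)`) or outside `ℚ(ω)` (use the curve
`y² = x³ + (c/2)²` of `ℤ[ω]`-rank one over `K(ω)`). With the universal definition of the ring of integers
this gives the universal definition of `ℤ`.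
-/

set_option autoImplicit false

open WeierstrassCurve WeierstrassCurve.Affine Module
open Pool.Agent.H60.UDef

namespace Pool.Agent.H57U

theorem cmi (L : Type) [Field L] [NumberField L] : CMI L := fun _ hi =>
  Pool.Agent.H60R.cm_rank_one' L (Pool.Agent.SZ.prDiff_all L 2 (Or.inl rfl)) hi

theorem pd3 (L : Type) [Field L] [NumberField L] : Pool.Agent.H52OM.PD3 L := by
  intro S N x₀ hx₀
  obtain ⟨π₁, π₂, X, p₁, p₂, h1, h2, h3, h4, h5, h6, h7, h8, h9, h10, h11, h12, h13⟩ :=
    Pool.Agent.SZ.prDiff_all L 3 (Or.inr rfl) S N x₀ hx₀ 1 one_ne_zero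
  exact ⟨π₁, π₂, X, p₁, p₂, h1, h2, h3, h4, h5, h6, h7, h8, h9, h10, h11, h12, by
    rw [h13, one_mul]⟩

theorem zc_wac {L : Type} [Field L] [CharZero L] {c w : L} (hc : c ≠ 0) (hw : w ^ 2 + w + 1 = 0)
    (P : Pool.Agent.H52OM.Eo c) : zc (Pool.Agent.H52OM.wac w P) = w * zc P := by
  by_cases h0 : P = 0
  · rw [h0, Pool.Agent.H52OM.wac_zero, zc_zero, mul_zero]
  · obtain ⟨x, y, h⟩ := exists_isAt h0
    rw [zc_isAt h, zc_isAt (Pool.Agent.H52OM.wac_isAt hc hw h)]
    ring

/-- Elements outside `ℚ(ω)` are outside a subfield with Diophantine complement. -/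
theorem subfield_w (L : Type) [Field L] [NumberField L] {w : L} (hw : w ^ 2 + w + 1 = 0) {x : L}
    (hx : ∀ q r : ℚ, x ≠ (q : L) + r * w) :
    ∃ E : Subfield L, DioP L (fun y => y ∉ E) ∧ x ∉ E := by
  classical
  obtain ⟨c, hc, Q, hQ, m, hm, hG⟩ :=
    Pool.Agent.H52OM.om_rank_one L (pd3 L) hw
  have hab : 4 * (0 : L) ^ 3 + 27 * ((c / 2) ^ 2) ^ 2 ≠ 0 := by
    have h2 : (c / 2) ^ 2 ≠ 0 := pow_ne_zero 2 (div_ne_zero hc two_ne_zero)
    have : 27 * ((c / 2) ^ 2) ^ 2 ≠ 0 := mul_ne_zero (by norm_num) (pow_ne_zero 2 h2)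
    simpa using this
  refine cm_subfield L hab (N := 3) (by norm_num) (Pool.Agent.H52OM.w_cube hw)
    (Pool.Agent.H52OM.wac w) (fun P Q => Pool.Agent.H52OM.wac_add hc hw P Q)
    (fun P => zc_wac hc hw P) hQ hm hG (indep_of L ?_ hx)
  intro q hq
  have h1 : ((q ^ 2 + q + 1 : ℚ) : L) = 0 := by
    push_cast
    rw [hq]
    exact hw
  have h2 : q ^ 2 + q + 1 = 0 := by exact_mod_cast h1
  nlinarith [sq_nonneg (q + 1 / 2)]

/-- A finite extension with a primitive third root of unity. -/
theorem exists_w (K : Type) [Field K] [NumberField K] :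
    ∃ (L : Type) (_ : Field L) (_ : NumberField L) (_ : Algebra K L) (w : L), w ^ 2 + w + 1 = 0 := by
  by_cases h : ∃ g : K, g ^ 2 = -3
  · obtain ⟨g, hg⟩ := h
    refine ⟨K, _, inferInstance, Algebra.id K, (-1 + g) / 2, ?_⟩
    field_simp
    linear_combination hg
  · push Not at h
    obtain ⟨M, h1, h2, h3, δ, hδ, -⟩ := Pool.Agent.H57O.exists_quad (-3 : K) h
    refine ⟨M, h1, h2, h3, (-1 + δ) / 2, ?_⟩
    rw [map_neg, map_ofNat] at hδ
    field_simp
    linear_combination hδ

/-- An element cannot be in `ℚ(i)` and in `ℚ(ω)` without being rational. -/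
theorem not_both {K L M : Type} [Field K] [Field L] [Field M] [CharZero K] [CharZero L] [CharZero M]
    [Algebra K L] [Algebra K M] {i : L} (hi : i ^ 2 = -1) {w : M} (hw : w ^ 2 + w + 1 = 0)
    {x : K} {q r s t : ℚ} (h1 : algebraMap K L x = q + r * i) (h2 : algebraMap K M x = s + t * w) :
    (q : K) = x := by
  have e1 : (x - q) ^ 2 = -(r : K) ^ 2 := by
    apply (algebraMap K L).injective
    rw [map_pow, map_sub, h1, map_ratCast, map_neg, map_pow, map_ratCast]
    linear_combination (r : L) ^ 2 * hi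
  have e2 : (((s - q : ℚ) : M) + t * w) ^ 2 = -(r : M) ^ 2 := by
    have := congrArg (algebraMap K M) e1
    rw [map_pow, map_sub, h2, map_ratCast, map_neg, map_pow, map_ratCast] at this
    rw [← this]
    push_cast
    ring
  -- coefficients with respect to `1, w`
  have hwq : ∀ a b : ℚ, (a : M) + b * w = 0 → a = 0 ∧ b = 0 := by
    intro a b hab
    have hb : b = 0 := by
      by_contra hb
      have hb' : (b : M) ≠ 0 := by exact_mod_cast hb
      have hw' : w = ((-a / b : ℚ) : M) := by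
        push_cast
        field_simp
        linear_combination hab
      have h3 : (((-a / b) ^ 2 + (-a / b) + 1 : ℚ) : M) = 0 := by
        rw [Rat.cast_add, Rat.cast_add, Rat.cast_pow, ← hw', Rat.cast_one]
        exact hw
      have h4 : (-a / b) ^ 2 + (-a / b) + 1 = 0 := by exact_mod_cast h3
      nlinarith [sq_nonneg (-a / b + 1 / 2)]
    refine ⟨?_, hb⟩
    rw [hb] at hab
    have : (a : M) = 0 := by simpa using hab
    exact_mod_cast this
  obtain ⟨h3, h4⟩ := hwq ((s - q) ^ 2 - t ^ 2 + r ^ 2) (2 * (s - q) * t - t ^ 2) (by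
    push_cast at e2 ⊢
    linear_combination e2 - (t : M) ^ 2 * hw)
  have hr : r = 0 := by
    have h5 : t * (2 * (s - q) - t) = 0 := by linear_combination h4
    rcases mul_eq_zero.mp h5 with h6 | h6
    · rw [h6] at h3
      nlinarith [sq_nonneg (s - q), sq_nonneg r]
    · have h7 : t = 2 * (s - q) := by linear_combination -h6
      rw [h7] at h3
      -- `r² = 3 (s - q)²`
      have h8 : r ^ 2 = 3 * (s - q) ^ 2 := by linear_combination h3
      by_contra hr
      have hsq : s - q ≠ 0 := by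
        intro h9
        rw [h9] at h8
        exact hr (pow_eq_zero_iff (two_ne_zero) |>.mp (by linear_combination h8))
      have h9 : (r / (s - q)) ^ 2 = 3 := by
        rw [div_pow, h8]
        field_simp
      have h10 : IsSquare (3 : ℚ) := ⟨r / (s - q), by rw [← h9]; ring⟩
      have h11 : ¬ IsSquare (3 : ℚ) := by
        rw [show (3 : ℚ) = ((3 : ℕ) : ℚ) by norm_num, Rat.isSquare_natCast_iff]
        rintro ⟨n, hn⟩
        have : n ≤ 3 := by nlinarith
        interval_cases n <;> omega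
      exact h11 h10
  apply (algebraMap K L).injective
  rw [h1, hr, map_ratCast]
  simp

/-- The complement of `ℚ` is Diophantine in every number field. -/
theorem dio_not_rat_all (K : Type) [Field K] [NumberField K] :
    Dio K (fun v : Fin 1 → K => ¬ ∃ q : ℚ, (q : K) = v 0) := by
  refine dio_not_rat_of_subfields K fun x hx => ?_
  obtain ⟨L, f1, f2, f3, i, hi⟩ := exists_i K
  by_cases h1 : ∀ q r : ℚ, algebraMap K L x ≠ (q : L) + r * i
  · obtain ⟨E, hE, hxE⟩ := subfield_i L (cmi L) hi h1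
    exact ⟨L, f1, f2, f3, E, hE, hxE⟩
  push Not at h1
  obtain ⟨q, r, hqr⟩ := h1
  obtain ⟨M, g1, g2, g3, w, hw⟩ := exists_w K
  have h2 : ∀ s t : ℚ, algebraMap K M x ≠ (s : M) + t * w := by
    intro s t hst
    exact hx ⟨q, not_both hi hw hqr hst⟩
  obtain ⟨E, hE, hxE⟩ := subfield_w M hw h2
  exact ⟨M, g1, g2, g3, E, hE, hxE⟩

/-- `ℚ` is universally definable in every number field. -/
theorem univDef_rat (K : Type) [Field K] [NumberField K] [FirstOrder.Ring.CompatibleRing K] :
    UnivDef K (fun a => ∃ q : ℚ, (q : K) = a) :=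
  univDef_of_dio (X := fun a : K => ∃ q : ℚ, (q : K) = a) (dio_not_rat_all K)

/-- `ℤ` is universally definable in every number field. -/
theorem univDef_Z (K : Type) [Field K] [NumberField K] [FirstOrder.Ring.CompatibleRing K] :
    UnivDef K (fun a => ∃ n : ℤ, (n : K) = a) :=
  univDef_int_of (univDef_rat K) (Pool.Agent.H57O.univDef_int K)

end Pool.Agent.H57U
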